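import Mathlib
import Pool.Agent.H11.Woody

namespace Pool.Agent.Results.MP_5ca9a4_co.ColCounterexample

open Pool.Agent.H11.Woody

/-- Colouring number: least `r` such that for some linear ordering of the vertices (given by an
injective rank function) every vertex has at most `r - 1` neighbours preceding it. -/
noncomputable def colNum {V : Type} (G : SimpleGraph V) : ℕ :=
  sInf {r | ∃ f : V → ℕ, Function.Injective f ∧
    ∀ v, {u | G.Adj v u ∧ f u < f v}.ncard + 1 ≤ r}

abbrev W := Bool ⊕ Fin 19 ⊕ (Fin 19 × Fin 19)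

def rel : W → W → Prop
  | .inr (.inl _), .inl _ => True
  | .inr (.inr p), .inr (.inl i) => i = p.1 ∨ i = p.2
  | _, _ => False

def G0 : SimpleGraph W := SimpleGraph.fromRel rel

def rk : W → ℕ
  | .inl b => if b then 1 else 0
  | .inr (.inl i) => 2 + i.val
  | .inr (.inr p) => 21 + 19 * p.1.val + p.2.val

theorem col_le : colNum G0 ≤ 3 := by
  apply Nat.sInf_le
  refine ⟨rk, ?_, ?_⟩
  · rintro (a | a | ⟨a, a'⟩) (b | b | ⟨b, b'⟩) h <;> simp only [rk] at h
    · cases a <;> cases b <;> simp_all
    · split_ifs at h <;> omega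
    · split_ifs at h <;> omega
    · split_ifs at h <;> omega
    · rw [Fin.ext (show a.val = b.val by omega)]
    · omega
    · split_ifs at h <;> omega
    · omega
    · rw [Fin.ext (show a.val = b.val by omega), Fin.ext (show a'.val = b'.val by omega)]
  · intro v
    have key : ∀ x y : W, {u | G0.Adj v u ∧ rk u < rk v} ⊆ {x, y} →
        {u | G0.Adj v u ∧ rk u < rk v}.ncard + 1 ≤ 3 := by
      intro x y h
      have h1 := Set.ncard_le_ncard h (Set.toFinite _)
      have h2 := Set.ncard_insert_le x ({y} : Set W)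
      rw [Set.ncard_singleton] at h2
      omega
    rcases v with a | a | ⟨a, a'⟩
    · refine key (.inl true) (.inl false) ?_
      rintro (b | b | b) ⟨h1, h2⟩
      · cases b <;> simp
      · simp only [rk] at h2; split_ifs at h2 <;> omega
      · simp only [rk] at h2; split_ifs at h2 <;> omega
    · refine key (.inl true) (.inl false) ?_
      rintro (b | b | b) ⟨h1, h2⟩
      · cases b <;> simp
      · simp [G0, rel] at h1
      · simp only [rk] at h2; omega
    · refine key (.inr (.inl a)) (.inr (.inl a')) ?_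
      rintro (b | b | b) ⟨h1, h2⟩
      · simp [G0, rel] at h1
      · simpa [G0, rel] using h1
      · simp [G0, rel] at h1

theorem strong_ge : 4 ≤ strongArb G0 := by
  refine le_csInf (strong_nonempty G0) ?_
  rintro k ⟨c, hc, hs⟩
  by_contra hk
  have a1 : ∀ (i : Fin 19) (b : Bool), G0.Adj (.inr (.inl i)) (.inl b) := by
    intro i b; simp [G0, rel]
  have a2 : ∀ i j : Fin 19, G0.Adj (.inr (.inl i)) (.inr (.inr (i, j))) := by
    intro i j; simp [G0, rel]
  have a3 : ∀ i j : Fin 19, G0.Adj (.inr (.inl j)) (.inr (.inr (i, j))) := by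
    intro i j; simp [G0, rel]
  have lt3 : ∀ {u v : W}, G0.Adj u v → c s(u, v) < 3 := fun {u v} h => by
    have := hc s(u, v) h
    omega
  let φ : Fin 19 → Fin 3 × Fin 3 := fun i => (⟨_, lt3 (a1 i true)⟩, ⟨_, lt3 (a1 i false)⟩)
  obtain ⟨z, hz⟩ := Fintype.exists_lt_card_fiber_of_mul_lt_card φ (n := 2) (by simp)
  obtain ⟨i, hi, j, hj, l, hl, hij, hil, hjl⟩ := Finset.two_lt_card.mp hz
  simp only [Finset.mem_filter, Finset.mem_univ, true_and] at hi hj hl
  have same : ∀ i j, φ i = z → φ j = z → ∀ b,
      c s(.inr (.inl i), .inl b) = c s(.inr (.inl j), .inl b) := by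
    intro i j hi hj b
    have h := hi.trans hj.symm
    simp only [φ, Prod.mk.injEq, Fin.mk.injEq] at h
    cases b
    · exact h.2
    · exact h.1
  have hab : c s(.inr (.inl i), .inl true) ≠ c s(.inr (.inl i), .inl false) := by
    intro h
    refine four hs (a1 i false).symm (a1 i true) (a1 j true).symm (a1 j false) (by simp)
      (by simpa using hij) ?_ ?_
    · rw [Sym2.eq_swap, h]
    · rw [same i j hi hj, Sym2.eq_swap]
  have third : ∀ (p q : Fin 19) (w : W), φ p = z → φ q = z → p ≠ q →
      G0.Adj (.inr (.inl p)) w → G0.Adj (.inr (.inl q)) w → (∀ b, w ≠ .inl b) →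
      c s(.inr (.inl p), w) + c s(.inr (.inl i), .inl true) +
        c s(.inr (.inl i), .inl false) = 3 := by
    intro p q w hp hq hpq h1 h2 hw
    have n : ∀ b, c s(.inr (.inl p), w) ≠ c s(.inr (.inl i), .inl b) := by
      intro b h
      refine four hs h1.symm (a1 p b) (a1 q b).symm h2 (hw b) (by simpa using hpq) ?_ ?_
      · rw [Sym2.eq_swap, h, same i p hi hp]
      · rw [same p q hp hq, Sym2.eq_swap]
    have := n true
    have := n false
    have := lt3 h1
    have := lt3 (a1 i true)
    have := lt3 (a1 i false)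
    omega
  have t1 := third i j _ hi hj hij (a2 i j) (a3 i j) (by simp)
  have t2 := third j i _ hj hi hij.symm (a3 i j) (a2 i j) (by simp)
  have t3 := third j l _ hj hl hjl (a2 j l) (a3 j l) (by simp)
  have t4 := third l j _ hl hj hjl.symm (a3 j l) (a2 j l) (by simp)
  have t5 := third l i _ hl hi hil.symm (a2 l i) (a3 l i) (by simp)
  have t6 := third i l _ hi hl hil (a3 l i) (a2 l i) (by simp)
  refine six hs.woody (a2 i j) (a3 i j).symm (a2 j l) (a3 j l).symm (a2 l i) (a3 l i).symm
    (by simp; grind) ?_ ?_ ?_ ?_ ?_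
  · rw [Sym2.eq_swap (a := (.inr (.inr (i, j)) : W))]; omega
  · rw [Sym2.eq_swap (a := (.inr (.inr (i, j)) : W))]; omega
  · rw [Sym2.eq_swap (a := (.inr (.inr (j, l)) : W))]; omega
  · rw [Sym2.eq_swap (a := (.inr (.inr (j, l)) : W))]; omega
  · rw [Sym2.eq_swap (a := (.inr (.inr (l, i)) : W))]; omega

theorem result : ∃ (V : Type) (_ : Finite V) (G : SimpleGraph V), colNum G + 1 ≤ strongArb G := by
  refine ⟨W, inferInstance, G0, ?_⟩
  have := col_le
  have := strong_ge
  omega

end Pool.Agent.Results.MP_5ca9a4_co.ColCounterexample
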